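import Pool.Agent.L0h87.LE.StmH

set_option autoImplicit false

/-!
# Module LVI: the level sets of the heights are nearly invariant
-/

namespace Pool.Agent.L0h90.LE

open Finset Filter Topology Pool.Agent.L0h87.LE

namespace LVIAux

theorem phi_cont (x : ℝ) (ε : ℝ) (hε : 0 < ε) : ∃ η : ℝ, 0 < η ∧ Phi (x + η) - Phi (x - η) ≤ ε := by
  have hm : (ProbabilityTheory.cdf (ProbabilityTheory.gaussianReal 0 1)).measure
      = ProbabilityTheory.gaussianReal 0 1 := ProbabilityTheory.measure_cdf _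
  have h0 : (ProbabilityTheory.cdf (ProbabilityTheory.gaussianReal 0 1)).measure {x} = 0 := by
    rw [hm]
    have := ProbabilityTheory.nullSingletonClass_gaussianReal (μ := 0) (v := 1) one_ne_zero
    exact MeasureTheory.measure_singleton x
  rw [StieltjesFunction.measure_singleton, ENNReal.ofReal_eq_zero] at h0
  have hc : ContinuousAt (fun y => ProbabilityTheory.cdf (ProbabilityTheory.gaussianReal 0 1) y) x := by
    rw [(ProbabilityTheory.cdf (ProbabilityTheory.gaussianReal 0 1)).mono.continuousAt_iff_leftLim_eq_rightLim,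
      StieltjesFunction.rightLim_eq]
    exact le_antisymm ((ProbabilityTheory.cdf (ProbabilityTheory.gaussianReal 0 1)).mono.leftLim_le le_rfl)
      (by linarith)
  obtain ⟨d, hd, hd'⟩ := Metric.continuousAt_iff.1 hc (ε / 2) (by positivity)
  refine ⟨d / 2, by positivity, ?_⟩
  have h1 := hd' (x := x + d / 2) (by rw [Real.dist_eq]; rw [abs_lt]; constructor <;> linarith)
  have h2 := hd' (x := x - d / 2) (by rw [Real.dist_eq]; rw [abs_lt]; constructor <;> linarith)
  rw [Real.dist_eq, abs_lt] at h1 h2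
  unfold Phi
  linarith [h1.1, h1.2, h2.1, h2.2]

theorem dens_diff (P Q : ℕ → Prop) (hPQ : ∀ m, Odd m → Q m → P m) (d1 d2 : ℝ) (hP : HasOddDensity P d1)
    (hQ : HasOddDensity Q d2) (ε : ℝ) (h : d1 - d2 < ε) :
    ∃ N₀ : ℕ, ∀ N : ℕ, N₀ ≤ N → ({m : ℕ | m ≤ N ∧ Odd m ∧ P m ∧ ¬ Q m}.ncard : ℝ) ≤ ε * N / 2 := by
  have ht := hP.sub hQ
  have he := ht.eventually (gt_mem_nhds h)
  obtain ⟨N₀, hN₀⟩ := eventually_atTop.1 he
  refine ⟨max N₀ 1, fun N hN => ?_⟩
  have h1 := hN₀ N (le_trans (le_max_left _ _) hN)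
  have hN1 : (1 : ℝ) ≤ N := by exact_mod_cast le_trans (le_max_right _ _) hN
  have hfinP : {m : ℕ | m ≤ N ∧ Odd m ∧ P m}.Finite := (Set.finite_Iic N).subset fun m hm => hm.1
  have hfinQ : {m : ℕ | m ≤ N ∧ Odd m ∧ Q m}.Finite := (Set.finite_Iic N).subset fun m hm => hm.1
  have hfinD : {m : ℕ | m ≤ N ∧ Odd m ∧ P m ∧ ¬ Q m}.Finite := (Set.finite_Iic N).subset fun m hm => hm.1
  have hun : {m : ℕ | m ≤ N ∧ Odd m ∧ P m} = {m : ℕ | m ≤ N ∧ Odd m ∧ P m ∧ ¬ Q m} ∪ {m : ℕ | m ≤ N ∧ Odd m ∧ Q m} := by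
    ext m
    simp only [Set.mem_setOf_eq, Set.mem_union]
    constructor
    · rintro ⟨h1, h2, h3⟩
      by_cases h4 : Q m
      · exact Or.inr ⟨h1, h2, h4⟩
      · exact Or.inl ⟨h1, h2, h3, h4⟩
    · rintro (⟨h1, h2, h3, _⟩ | ⟨h1, h2, h3⟩)
      · exact ⟨h1, h2, h3⟩
      · exact ⟨h1, h2, hPQ m h2 h3⟩
  have hdis : Disjoint {m : ℕ | m ≤ N ∧ Odd m ∧ P m ∧ ¬ Q m} {m : ℕ | m ≤ N ∧ Odd m ∧ Q m} := by
    rw [Set.disjoint_left]
    rintro m ⟨_, _, _, h4⟩ ⟨_, _, h5⟩
    exact h4 h5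
  have hcard := Set.ncard_union_eq hdis hfinD hfinQ
  rw [← hun] at hcard
  rw [hcard] at h1
  push_cast at h1
  have h2 : 2 / (N : ℝ) * ({m : ℕ | m ≤ N ∧ Odd m ∧ P m ∧ ¬ Q m}.ncard : ℝ) < ε := by
    have : 2 / (N : ℝ) * (({m : ℕ | m ≤ N ∧ Odd m ∧ P m ∧ ¬ Q m}.ncard : ℝ) + ({m : ℕ | m ≤ N ∧ Odd m ∧ Q m}.ncard : ℝ))
      - 2 / (N : ℝ) * ({m : ℕ | m ≤ N ∧ Odd m ∧ Q m}.ncard : ℝ)
      = 2 / (N : ℝ) * ({m : ℕ | m ≤ N ∧ Odd m ∧ P m ∧ ¬ Q m}.ncard : ℝ) := by ring
    rw [← this]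
    exact h1
  rw [div_mul_eq_mul_div, div_lt_iff₀ (by linarith)] at h2
  linarith

theorem sqrt_diff (u v w : ℝ) (hv : 0 ≤ v) (hw : 0 ≤ w) (h : u ≤ v + w) : Real.sqrt u ≤ Real.sqrt v + Real.sqrt w := by
  rw [Real.sqrt_le_left (by positivity)]
  have h1 := Real.sq_sqrt hv
  have h2 := Real.sq_sqrt hw
  have h3 : 0 ≤ Real.sqrt v * Real.sqrt w := by positivity
  nlinarith

theorem l43 : 0 < Real.log (4 / 3) := Real.log_pos (by norm_num)

theorem bound_diff (x R : ℝ) (hR : 1 ≤ R) : ∃ C : ℝ, 0 ≤ C ∧ ∀ m n : ℕ, 1 ≤ m → 1 ≤ n → (m : ℝ) ≤ R * n →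
    (n : ℝ) ≤ R * m → |bound x m - bound x n| ≤ C := by
  have hl := l43
  have hL : 0 ≤ Real.log R := Real.log_nonneg hR
  have hl2 : 0 < Real.log 2 := Real.log_pos (by norm_num)
  have hl16 : 0 < Real.log (16 / 9) := Real.log_pos (by norm_num)
  refine ⟨2 / Real.log (16 / 9) * Real.log R + |x| * (Real.log 2 * Real.sqrt (2 * Real.log R / Real.log (4 / 3) ^ 3)),
    by positivity, fun m n hm hn h1 h2 => ?_⟩
  have key : ∀ m n : ℕ, 1 ≤ m → 1 ≤ n → (m : ℝ) ≤ R * n → Real.log m ≤ Real.log n + Real.log R := by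
    intro m n hm hn h
    have hm' : (0 : ℝ) < m := by exact_mod_cast hm
    have hn' : (0 : ℝ) < n := by exact_mod_cast hn
    rw [← Real.log_mul (by positivity) (by positivity)]
    exact Real.log_le_log hm' (by linarith [mul_comm R (n : ℝ)])
  have ha := key m n hm hn h1
  have hb := key n m hn hm h2
  have hlm : 0 ≤ Real.log m := Real.log_nonneg (by exact_mod_cast hm)
  have hln : 0 ≤ Real.log n := Real.log_nonneg (by exact_mod_cast hn)
  have ks : ∀ u v : ℝ, 0 ≤ v → u ≤ v + Real.log R → Real.sqrt (2 * u / Real.log (4 / 3) ^ 3)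
      ≤ Real.sqrt (2 * v / Real.log (4 / 3) ^ 3) + Real.sqrt (2 * Real.log R / Real.log (4 / 3) ^ 3) := by
    intro u v hv huv
    apply sqrt_diff _ _ _ (by positivity) (by positivity)
    rw [← add_div]
    gcongr
    linarith
  have hs1 := ks _ _ hln ha
  have hs2 := ks _ _ hlm hb
  unfold bound
  have e1 : 2 / Real.log (16 / 9) * Real.log m + x * (Real.log 2 * Real.sqrt (2 * Real.log m / Real.log (4 / 3) ^ 3))
      - (2 / Real.log (16 / 9) * Real.log n + x * (Real.log 2 * Real.sqrt (2 * Real.log n / Real.log (4 / 3) ^ 3)))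
      = 2 / Real.log (16 / 9) * (Real.log m - Real.log n) + x * (Real.log 2 *
        (Real.sqrt (2 * Real.log m / Real.log (4 / 3) ^ 3) - Real.sqrt (2 * Real.log n / Real.log (4 / 3) ^ 3))) := by
    ring
  rw [e1]
  refine (abs_add_le _ _).trans (add_le_add ?_ ?_)
  · rw [abs_mul, abs_of_pos (by positivity : 0 < 2 / Real.log (16 / 9))]
    gcongr
    rw [abs_le]
    constructor <;> linarith
  · rw [abs_mul, abs_mul, abs_of_pos hl2]
    gcongr
    rw [abs_le]
    constructor <;> linarith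

theorem grow (η C : ℝ) (hη : 0 < η) : ∃ n0 : ℕ, ∀ n : ℕ, n0 ≤ n →
    C ≤ η * (Real.log 2 * Real.sqrt (2 * Real.log n / Real.log (4 / 3) ^ 3)) := by
  have hl := l43
  have hl2 : 0 < Real.log 2 := Real.log_pos (by norm_num)
  have h1 : Tendsto (fun n : ℕ => Real.log (n : ℝ)) atTop atTop := Real.tendsto_log_atTop.comp tendsto_natCast_atTop_atTop
  have h2 : Tendsto (fun n : ℕ => 2 * Real.log (n : ℝ) / Real.log (4 / 3) ^ 3) atTop atTop :=
    (h1.const_mul_atTop (by norm_num : (0 : ℝ) < 2)).atTop_div_const (by positivity)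
  have h3 : Tendsto (fun n : ℕ => Real.sqrt (2 * Real.log (n : ℝ) / Real.log (4 / 3) ^ 3)) atTop atTop :=
    Real.tendsto_sqrt_atTop.comp h2
  have h4 := (h3.const_mul_atTop hl2).const_mul_atTop hη
  exact eventually_atTop.1 (h4.eventually_ge_atTop C)

theorem bound_add (x η : ℝ) (n : ℕ) : bound (x + η) n = bound x n
    + η * (Real.log 2 * Real.sqrt (2 * Real.log n / Real.log (4 / 3) ^ 3)) := by
  unfold bound; ring

theorem bound_sub (x η : ℝ) (n : ℕ) : bound (x - η) n = bound x n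
    - η * (Real.log 2 * Real.sqrt (2 * Real.log n / Real.log (4 / 3) ^ 3)) := by
  unfold bound; ring

/-- the level sets of `m` and `n` agree unless `n` is near the boundary -/
theorem level_iff (h : ℕ → ℕ∞) (q : ℕ) (b : ℤ) (x η C : ℝ) (c' m n : ℕ) (hη : 0 < η) (hC0 : 0 ≤ C)
    (hq : q ∣ c') (hg : h m + c' = h n) (hC : |bound x m - bound x n| ≤ C)
    (hgr : C + c' + 1 ≤ η * (Real.log 2 * Real.sqrt (2 * Real.log n / Real.log (4 / 3) ^ 3)))
    (hD : ¬ (LevelH h 1 0 (x + η) n ∧ ¬ LevelH h 1 0 (x - η) n)) :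
    LevelH h q b x m ↔ LevelH h q b x n := by
  rw [abs_le] at hC
  have hc'0 : (0 : ℝ) ≤ c' := Nat.cast_nonneg _
  rcases em (h n = ⊤) with ht | ht
  · have hmt : h m = ⊤ := by
      rw [ht] at hg
      by_contra hne
      obtain ⟨k, hk⟩ := ENat.ne_top_iff_exists.1 hne
      rw [← hk] at hg
      exact absurd hg (by
        have : ((k : ℕ∞) + (c' : ℕ∞)) = ((k + c' : ℕ) : ℕ∞) := by push_cast; rfl
        rw [this]; exact ENat.natCast_ne_top _)
    unfold LevelH
    constructor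
    · rintro ⟨k, hk, _⟩
      rw [hmt] at hk
      exact absurd hk.symm (ENat.natCast_ne_top _)
    · rintro ⟨k, hk, _⟩
      rw [ht] at hk
      exact absurd hk.symm (ENat.natCast_ne_top _)
  · obtain ⟨kn, hkn⟩ := ENat.ne_top_iff_exists.1 ht
    have hmt : h m ≠ ⊤ := by
      intro hm
      rw [hm, top_add] at hg
      exact ht hg.symm
    obtain ⟨km, hkm⟩ := ENat.ne_top_iff_exists.1 hmt
    have hk : km + c' = kn := by
      rw [← hkm, ← hkn] at hg
      exact_mod_cast hg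
    have hkR : (km : ℝ) + c' = kn := by exact_mod_cast hk
    have hmod : ((km : ℤ) ≡ b [ZMOD q]) ↔ ((kn : ℤ) ≡ b [ZMOD q]) := by
      have h0 : (km : ℤ) ≡ kn [ZMOD q] := by
        rw [Int.modEq_iff_dvd, ← hk]
        push_cast
        rw [add_sub_cancel_left]
        exact_mod_cast hq
      exact ⟨fun h1 => h0.symm.trans h1, fun h1 => h0.trans h1⟩
    have iffm : ∀ (q' : ℕ) (b' : ℤ) (y : ℝ), LevelH h q' b' y m ↔ ((km : ℝ) ≤ bound y m ∧ (km : ℤ) ≡ b' [ZMOD q']) := by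
      intro q' b' y
      unfold LevelH
      constructor
      · rintro ⟨k, hk1, hk2⟩
        rw [← hkm] at hk1
        have : km = k := by exact_mod_cast hk1
        rw [this]; exact hk2
      · intro hk2
        exact ⟨km, hkm.symm, hk2⟩
    have iffn : ∀ (q' : ℕ) (b' : ℤ) (y : ℝ), LevelH h q' b' y n ↔ ((kn : ℝ) ≤ bound y n ∧ (kn : ℤ) ≡ b' [ZMOD q']) := by
      intro q' b' y
      unfold LevelH
      constructor
      · rintro ⟨k, hk1, hk2⟩
        rw [← hkn] at hk1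
        have : kn = k := by exact_mod_cast hk1
        rw [this]; exact hk2
      · intro hk2
        exact ⟨kn, hkn.symm, hk2⟩
    have one : ((kn : ℤ) ≡ 0 [ZMOD ((1 : ℕ) : ℤ)]) := by
      rw [Nat.cast_one]; exact Int.modEq_one
    have hD2 : ¬ ((kn : ℝ) ≤ bound (x + η) n ∧ ¬ (kn : ℝ) ≤ bound (x - η) n) := by
      rintro ⟨h1, h2⟩
      apply hD
      rw [iffn, iffn]
      exact ⟨⟨h1, one⟩, fun h3 => h2 h3.1⟩
    rw [bound_add, bound_sub] at hD2
    rw [iffm, iffn]
    constructor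
    · rintro ⟨h1, h2⟩
      refine ⟨?_, hmod.1 h2⟩
      by_contra h3
      rw [not_le] at h3
      exact hD2 ⟨by linarith, by rw [not_le]; linarith⟩
    · rintro ⟨h1, h2⟩
      refine ⟨?_, hmod.2 h2⟩
      by_contra h3
      rw [not_le] at h3
      exact hD2 ⟨by linarith, by rw [not_le]; linarith⟩

open Classical in
theorem ite_diff (p q : Prop) (v : ℝ) :
    |((if p then (1 : ℝ) else 0) - v) - ((if q then (1 : ℝ) else 0) - v)| ≤ 1 := by
  split_ifs <;> rw [abs_le] <;> constructor <;> linarith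

end LVIAux

open LVIAux

open Classical in
/-- the level sets of the heights are nearly invariant -/
theorem LVI : Pool.Agent.L0h87.LE.LVI := by
  intro h δ hNB hd q b x v hq a b' hb' M hM s hs ε hε
  obtain ⟨c', hc'q, hgood⟩ : ∃ c' : ℕ, q ∣ c' ∧
      AA (fun i => h (2 * M * i + 2 * s + 1) + c' = h (2 * 2 ^ a * i + 1)) := by
    rcases hM with rfl | rfl
    · exact ⟨0, dvd_zero _, by simpa using (hNB a 0).1 s hs⟩
    · exact ⟨b', hb', by simpa using (hNB a b').2 s hs⟩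
  have hM1 : 1 ≤ M := by omega
  have hM1r : (1 : ℝ) ≤ M := by exact_mod_cast hM1
  have h2a : (1 : ℝ) ≤ 2 ^ a := one_le_pow₀ (by norm_num)
  obtain ⟨C, hC0, hC⟩ := bound_diff x (2 * M * 2 ^ a) (by nlinarith)
  have hdpos : (0 : ℝ) < |δ| + 1 := by positivity
  obtain ⟨η, hη, hPhi⟩ := phi_cont x (ε / (8 * 2 ^ a * (|δ| + 1))) (by positivity)
  obtain ⟨n0, hn0⟩ := grow η (C + c' + 1) hη
  have hPhi0 : 0 ≤ Phi (x + η) - Phi (x - η) :=
    sub_nonneg.2 ((ProbabilityTheory.cdf (ProbabilityTheory.gaussianReal 0 1)).mono (by linarith))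
  obtain ⟨N0, hN0⟩ := dens_diff (LevelH h 1 0 (x + η)) (LevelH h 1 0 (x - η)) (by
      intro m hm hl
      obtain ⟨k, hk1, hk2, hk3⟩ := hl
      refine ⟨k, hk1, hk2.trans ?_, hk3⟩
      rw [bound_add, bound_sub]
      have hlm : 0 ≤ Real.log m := Real.log_nonneg (by exact_mod_cast hm.pos)
      have hl2 : 0 < Real.log 2 := Real.log_pos (by norm_num)
      have : 0 ≤ η * (Real.log 2 * Real.sqrt (2 * Real.log m / Real.log (4 / 3) ^ 3)) := by positivity
      linarith) _ _ (hd _) (hd _) (ε / (4 * 2 ^ a)) (by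
      have h1 : δ * Phi (x + η) - δ * Phi (x - η) = δ * (Phi (x + η) - Phi (x - η)) := by ring
      rw [h1]
      calc δ * (Phi (x + η) - Phi (x - η)) ≤ |δ| * (Phi (x + η) - Phi (x - η)) := by
            gcongr; exact le_abs_self _
        _ ≤ (|δ| + 1) * (ε / (8 * 2 ^ a * (|δ| + 1))) := by gcongr; linarith
        _ = ε / (8 * 2 ^ a) := by field_simp
        _ < ε / (4 * 2 ^ a) := by
            gcongr
            norm_num)
  obtain ⟨I1, hI1⟩ := hgood (ε / 4) (by positivity)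
  refine ⟨max I1 (max (max N0 1) ⌈4 * n0 / ε⌉₊), fun I hI => ?_⟩
  have hIa : I1 ≤ I := le_trans (le_max_left _ _) hI
  have hIb : N0 ≤ I := le_trans (le_trans (le_trans (le_max_left _ _) (le_max_left _ _)) (le_max_right _ _)) hI
  have hIc : ⌈4 * n0 / ε⌉₊ ≤ I := le_trans (le_trans (le_max_right _ _) (le_max_right _ _)) hI
  have hn0I : (n0 : ℝ) ≤ ε / 4 * I := by
    have h1 : 4 * n0 / ε ≤ I := (Nat.le_ceil _).trans (by exact_mod_cast hIc)
    rw [div_le_iff₀ hε] at h1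
    linarith
  -- the three sets
  set A := (range I).filter (fun i => ¬ (h (2 * M * i + 2 * s + 1) + c' = h (2 * 2 ^ a * i + 1))) with hA
  set B := (range I).filter (fun i => LevelH h 1 0 (x + η) (2 * 2 ^ a * i + 1) ∧
    ¬ LevelH h 1 0 (x - η) (2 * 2 ^ a * i + 1)) with hB
  have hterm : ∀ i ∈ range I,
      |(fun n => (if LevelH h q b x n then (1 : ℝ) else 0) - v) (2 * M * i + 2 * s + 1) -
        (fun n => (if LevelH h q b x n then (1 : ℝ) else 0) - v) (2 * 2 ^ a * i + 1)| ≤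
      (if i ∈ A then 1 else 0) + (if i ∈ B then 1 else 0) + (if i < n0 then 1 else 0) := by
    intro i hi
    by_cases hiA : i ∈ A
    · rw [if_pos hiA]
      have : (0 : ℝ) ≤ (if i ∈ B then 1 else 0) + (if i < n0 then 1 else 0) := by positivity
      refine le_trans ?_ (by linarith : (1 : ℝ) ≤ _)
      exact ite_diff _ _ v
    by_cases hiB : i ∈ B
    · rw [if_pos hiB]
      have : (0 : ℝ) ≤ (if i ∈ A then 1 else 0) + (if i < n0 then 1 else 0) := by positivity
      refine le_trans ?_ (by linarith : (1 : ℝ) ≤ _)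
      exact ite_diff _ _ v
    by_cases hin : i < n0
    · rw [if_pos hin]
      have : (0 : ℝ) ≤ (if i ∈ A then 1 else 0) + (if i ∈ B then 1 else 0) := by positivity
      refine le_trans ?_ (by linarith : (1 : ℝ) ≤ _)
      exact ite_diff _ _ v
    · rw [if_neg hiA, if_neg hiB, if_neg hin]
      have hg : h (2 * M * i + 2 * s + 1) + c' = h (2 * 2 ^ a * i + 1) := by
        by_contra hne
        exact hiA (Finset.mem_filter.2 ⟨hi, hne⟩)
      have hDn : ¬ (LevelH h 1 0 (x + η) (2 * 2 ^ a * i + 1) ∧ ¬ LevelH h 1 0 (x - η) (2 * 2 ^ a * i + 1)) :=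
        fun hne => hiB (Finset.mem_filter.2 ⟨hi, hne⟩)
      have h2aN : 1 ≤ 2 ^ a := Nat.one_le_two_pow
      have hge : n0 ≤ 2 * 2 ^ a * i + 1 := by nlinarith
      have hsM : (s : ℝ) + 1 ≤ M := by exact_mod_cast hs
      have hi0 : (0 : ℝ) ≤ i := Nat.cast_nonneg _
      have hs0 : (0 : ℝ) ≤ s := Nat.cast_nonneg _
      have hCmn := hC (2 * M * i + 2 * s + 1) (2 * 2 ^ a * i + 1) (by omega) (by omega)
        (by
          push_cast
          have e1 : (2 : ℝ) * M * i + 2 * s + 1 ≤ 2 * M * (i + 1) := by linarith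
          have e2 : (i : ℝ) + 1 ≤ 2 * 2 ^ a * i + 1 := by nlinarith
          have e3 : (2 : ℝ) * M * (i + 1) ≤ 2 * M * (2 * 2 ^ a * i + 1) := by gcongr
          have e4 : (2 : ℝ) * M * (2 * 2 ^ a * i + 1) * 1 ≤ 2 * M * (2 * 2 ^ a * i + 1) * 2 ^ a :=
            mul_le_mul_of_nonneg_left h2a (by positivity)
          linarith)
        (by
          push_cast
          have e1 : (2 : ℝ) * 2 ^ a * i + 1 ≤ 2 * 2 ^ a * (i + 1) := by nlinarith
          have e2 : (i : ℝ) + 1 ≤ 2 * M * i + 2 * s + 1 := by nlinarith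
          have e3 : (2 : ℝ) * 2 ^ a * (i + 1) ≤ 2 * 2 ^ a * (2 * M * i + 2 * s + 1) := by gcongr
          have e4 : (2 : ℝ) * 2 ^ a * (2 * M * i + 2 * s + 1) * 1 ≤ 2 * 2 ^ a * (2 * M * i + 2 * s + 1) * M :=
            mul_le_mul_of_nonneg_left hM1r (by positivity)
          linarith)
      have hiff := level_iff h q b x η C c' _ _ hη hC0 hc'q hg hCmn (hn0 _ hge) hDn
      simp only [hiff]
      simp
  have hcA : (A.card : ℝ) ≤ ε / 4 * I := by convert hI1 I hIa
  have hcB : (B.card : ℝ) ≤ ε / 4 * I := by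
    have h2aN : 1 ≤ 2 ^ a := Nat.one_le_two_pow
    have hNI := hN0 (2 * 2 ^ a * I) (by nlinarith)
    have hinj : B.card ≤ {m : ℕ | m ≤ 2 * 2 ^ a * I ∧ Odd m ∧ LevelH h 1 0 (x + η) m ∧
        ¬ LevelH h 1 0 (x - η) m}.ncard := by
      rw [← Set.ncard_coe_finset B]
      refine Set.ncard_le_ncard_of_injOn (fun i => 2 * 2 ^ a * i + 1) ?_ ?_ ?_
      · intro i hi
        have hi' := Finset.mem_filter.1 (Finset.mem_coe.1 hi)
        have hiI : i < I := Finset.mem_range.1 hi'.1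
        refine ⟨?_, ⟨2 ^ a * i, by ring⟩, hi'.2.1, hi'.2.2⟩
        nlinarith
      · intro i _ j _ hij
        simp only at hij
        have h3 : 2 * 2 ^ a * i = 2 * 2 ^ a * j := by omega
        exact Nat.eq_of_mul_eq_mul_left (by positivity) h3
      · exact (Set.finite_Iic (2 * 2 ^ a * I)).subset fun m hm => hm.1
    refine (Nat.cast_le.2 hinj).trans (hNI.trans ?_)
    push_cast
    have : ε / (4 * 2 ^ a) * (2 * 2 ^ a * (I : ℝ)) / 2 = ε / 4 * I := by
      field_simp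
    rw [this]
  calc ∑ i ∈ range I, |(fun n => (if LevelH h q b x n then (1 : ℝ) else 0) - v) (2 * M * i + 2 * s + 1) -
        (fun n => (if LevelH h q b x n then (1 : ℝ) else 0) - v) (2 * 2 ^ a * i + 1)|
      ≤ ∑ i ∈ range I, (((if i ∈ A then 1 else 0) + (if i ∈ B then 1 else 0) + (if i < n0 then 1 else 0) : ℝ)) :=
        Finset.sum_le_sum hterm
    _ = (A.card : ℝ) + B.card + ((range I).filter (fun i => i < n0)).card := by
        rw [Finset.sum_add_distrib, Finset.sum_add_distrib, Finset.sum_boole, Finset.sum_boole, Finset.sum_boole]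
        congr 2
        · congr 2
          rw [Finset.filter_mem_eq_inter]
          exact Finset.inter_eq_right.2 (Finset.filter_subset _ _)
        · congr 1
          rw [Finset.filter_mem_eq_inter]
          exact congrArg _ (Finset.inter_eq_right.2 (Finset.filter_subset _ _))
    _ ≤ ε / 4 * I + ε / 4 * I + n0 := by
        gcongr
        calc ((range I).filter (fun i => i < n0)).card ≤ (range n0).card :=
              Finset.card_le_card (fun i hi => Finset.mem_range.2 (Finset.mem_filter.1 hi).2)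
          _ = n0 := Finset.card_range n0
    _ ≤ ε * I := by
        have : (0 : ℝ) ≤ ε * I := by positivity
        linarith

end Pool.Agent.L0h90.LE
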